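import Mathlib

set_option autoImplicit false

namespace Pool.Agent.Results.MP_eea557_ag.SaitoSPOG

open MvPolynomial

universe u v

variable {K : Type u} [Field K] {l : ℕ} {ι : Type v} [Fintype ι]

/-- A derivation θ = ∑ θ_j ∂_j is stored as its coefficient vector; this is θ(f). -/
noncomputable def act (θ : Fin l → MvPolynomial (Fin l) K) (f : MvPolynomial (Fin l) K) :
    MvPolynomial (Fin l) K := ∑ j, θ j * pderiv j f

/-- Defining forms of a central arrangement: nonzero linear forms with distinct kernels. -/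
def IsArrangement (α : ι → MvPolynomial (Fin l) K) : Prop :=
  (∀ H, (α H).IsHomogeneous 1 ∧ α H ≠ 0) ∧
    Function.Injective fun H => {x : Fin l → K | eval x (α H) = 0}

/-- The module D(A) of logarithmic derivations. -/
def logDer (α : ι → MvPolynomial (Fin l) K) :
    Submodule (MvPolynomial (Fin l) K) (Fin l → MvPolynomial (Fin l) K) where
  carrier := {θ | ∀ H, α H ∣ act θ (α H)}
  zero_mem' := by intro H; simp [act]
  add_mem' := by
    intro a b ha hb H
    have := dvd_add (ha H) (hb H)
    simpa [act, add_mul, Finset.sum_add_distrib] using this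
  smul_mem' := by
    intro c a ha H
    have := (ha H).mul_left c
    simpa [act, mul_assoc, Finset.mul_sum] using this

/-- θ is homogeneous of degree d. -/
def IsHomDer (θ : Fin l → MvPolynomial (Fin l) K) (d : ℕ) : Prop := ∀ j, (θ j).IsHomogeneous d

/-- Homogeneous of positive degree (the zero polynomial included). -/
def InSpos (p : MvPolynomial (Fin l) K) : Prop := ∃ n, 0 < n ∧ p.IsHomogeneous n

/-- f_1 θ_1 + ⋯ + f_{l+1} θ_{l+1} = 0. -/
def IsRel (θ : Fin (l + 1) → Fin l → MvPolynomial (Fin l) K)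
    (f : Fin (l + 1) → MvPolynomial (Fin l) K) : Prop := ∑ i, f i • θ i = 0

/-- A relation of minimal degree: no nonconstant common divisor. -/
def IsMinRel (θ : Fin (l + 1) → Fin l → MvPolynomial (Fin l) K)
    (f : Fin (l + 1) → MvPolynomial (Fin l) K) : Prop :=
  IsRel θ f ∧ ∀ p, (∀ i, p ∣ f i) → p.totalDegree = 0

/-- D(A) has a minimal graded free resolution 0 → S[-d-1] → ⊕ S[-d_i] ⊕ S[-d] → D(A) → 0 whose
first map sends 1 to f, with the last entry of f a nonzero linear form. -/
def IsSPOG (α : ι → MvPolynomial (Fin l) K) : Prop :=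
  ∃ (η : Fin (l + 1) → Fin l → MvPolynomial (Fin l) K) (deg : Fin (l + 1) → ℕ)
    (f : Fin (l + 1) → MvPolynomial (Fin l) K),
    (∀ i, IsHomDer (η i) (deg i)) ∧ Submodule.span _ (Set.range η) = logDer α ∧
    (∀ r, IsRel η r ↔ ∃ c : MvPolynomial (Fin l) K, r = c • f) ∧
    (∀ i, f i = 0 ∨ ∃ n, 0 < n ∧ n + deg i = deg (Fin.last l) + 1 ∧ (f i).IsHomogeneous n) ∧
    f (Fin.last l) ≠ 0

/-- The matrix M_i: delete row i. -/
def minor (θ : Fin (l + 1) → Fin l → MvPolynomial (Fin l) K) (i : Fin (l + 1)) :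
    Matrix (Fin l) (Fin l) (MvPolynomial (Fin l) K) := Matrix.of fun a b => θ (i.succAbove a) b

/-- Condition (i). -/
def CondI (α : ι → MvPolynomial (Fin l) K) (θ : Fin (l + 1) → Fin l → MvPolynomial (Fin l) K)
    (g : Fin (l + 1) → MvPolynomial (Fin l) K) : Prop :=
  IsSPOG α ∧ Submodule.span _ (Set.range θ) = logDer α ∧
    (∀ i, θ i ∉ Submodule.span (MvPolynomial (Fin l) K) (θ '' {j | j ≠ i})) ∧
    IsMinRel θ g ∧ (∀ f, IsMinRel θ f → ∃ c : K, c ≠ 0 ∧ f = c • g) ∧
    (g (Fin.last l)).IsHomogeneous 1 ∧ g (Fin.last l) ≠ 0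

/-- Condition (ii). -/
def CondII (g : Fin (l + 1) → MvPolynomial (Fin l) K) : Prop :=
  ((g (Fin.last l)).IsHomogeneous 1 ∧ g (Fin.last l) ≠ 0) ∧ (∀ i : Fin l, InSpos (g i.castSucc)) ∧
    ¬ ∃ h, InSpos h ∧ ∀ i : Fin l, g i.castSucc ∈ Ideal.span {h, g (Fin.last l)}

/-! ### Polynomial lemmas -/

lemma top_mul (d e : MvPolynomial (Fin l) K) :
    homogeneousComponent (d.totalDegree + e.totalDegree) (d * e) =
      homogeneousComponent d.totalDegree d * homogeneousComponent e.totalDegree e := by
  conv_lhs => rw [← sum_homogeneousComponent d, ← sum_homogeneousComponent e]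
  simp only [sum_homogeneousComponent]
  have h : d * e = ∑ i ∈ Finset.range (d.totalDegree + 1), ∑ j ∈ Finset.range (e.totalDegree + 1),
      homogeneousComponent i d * homogeneousComponent j e := by
    rw [← Finset.sum_mul_sum, sum_homogeneousComponent, sum_homogeneousComponent]
  have t : ∀ i j, homogeneousComponent (d.totalDegree + e.totalDegree)
      (homogeneousComponent i d * homogeneousComponent j e) =
      if d.totalDegree + e.totalDegree = i + j then
        homogeneousComponent i d * homogeneousComponent j e else 0 := fun i j =>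
    homogeneousComponent_of_mem ((homogeneousComponent_isHomogeneous i d).mul
      (homogeneousComponent_isHomogeneous j e))
  rw [h]
  simp only [map_sum, t]
  rw [Finset.sum_eq_single d.totalDegree, Finset.sum_eq_single e.totalDegree, if_pos rfl]
  · intro j _ hj; rw [if_neg (by omega)]
  · simp
  · intro i hi hne
    apply Finset.sum_eq_zero
    intro j hj
    rw [Finset.mem_range] at hi hj
    rw [if_neg (by omega)]
  · simp

lemma top_eq {d e : MvPolynomial (Fin l) K} {N : ℕ} (h : (d * e).IsHomogeneous N)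
    (h0 : d * e ≠ 0) :
    d * e = homogeneousComponent d.totalDegree d * homogeneousComponent e.totalDegree e := by
  rw [← top_mul, ← totalDegree_mul_of_isDomain (left_ne_zero_of_mul h0) (right_ne_zero_of_mul h0),
    h.totalDegree h0, homogeneousComponent_eq_self h]

lemma lin_coeff {a : MvPolynomial (Fin l) K} (h : a.IsHomogeneous 1) (j : Fin l) :
    pderiv j a = C (coeff 0 (pderiv j a)) :=
  totalDegree_eq_zero_iff_eq_C.1 ((totalDegree_zero_iff_isHomogeneous _).2 h.pderiv)

lemma lin_ex {a : MvPolynomial (Fin l) K} (h : a.IsHomogeneous 1) (h0 : a ≠ 0) :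
    ∃ k c, c ≠ 0 ∧ pderiv k a = C c := by
  by_contra hn
  push Not at hn
  apply h0
  have := h.sum_X_mul_pderiv
  rw [one_smul] at this
  rw [← this]
  apply Finset.sum_eq_zero
  intro j _
  have : coeff 0 (pderiv j a) = 0 := by
    by_contra h1
    exact hn j _ h1 (lin_coeff h j)
  rw [lin_coeff h j, this]; simp

lemma lin_prime {a : MvPolynomial (Fin l) K} (h : a.IsHomogeneous 1) (h0 : a ≠ 0) : Prime a := by
  apply Irreducible.prime
  apply irreducible_of_totalDegree_eq_one (h.totalDegree h0)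
  intro x hx
  rw [isUnit_iff_ne_zero]
  rintro rfl
  apply h0
  ext m
  simpa using hx m

lemma pos_const {p : MvPolynomial (Fin l) K} (h : InSpos p) : constantCoeff p = 0 := by
  obtain ⟨n, hn, h⟩ := h
  exact h.coeff_eq_zero (by simpa using hn.ne)

/-- A retraction with kernel generated by a linear form. -/
lemma retraction {a : MvPolynomial (Fin l) K} (h : a.IsHomogeneous 1) (h0 : a ≠ 0) :
    ∃ π : MvPolynomial (Fin l) K →ₐ[K] MvPolynomial (Fin l) K, π a = 0 ∧ (∀ f, a ∣ f - π f) ∧
      ∀ f n, f.IsHomogeneous n → (π f).IsHomogeneous n := by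
  obtain ⟨k, c, hc, hk⟩ := lin_ex h h0
  let y : Fin l → MvPolynomial (Fin l) K := fun j => if j = k then X j - C c⁻¹ * a else X j
  refine ⟨aeval y, ?_, fun f => ?_, fun f n hf => ?_⟩
  · have e := h.sum_X_mul_pderiv
    rw [one_smul] at e
    have e2 : aeval y a = ∑ j, y j * pderiv j a := by
      conv_lhs => rw [← e]
      simp only [map_sum, map_mul, aeval_X]
      apply Finset.sum_congr rfl
      intro j _
      rw [lin_coeff h j, aeval_C]; rfl
    have e3 : ∀ j, y j * pderiv j a = X j * pderiv j a - if j = k then a else 0 := by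
      intro j
      by_cases hj : j = k
      · subst hj
        simp only [y, if_true, hk, sub_mul]
        rw [mul_right_comm, ← C_mul, inv_mul_cancel₀ hc]; simp
      · simp [y, hj]
    rw [e2]
    simp only [e3, Finset.sum_sub_distrib, e]
    simp
  · induction f using MvPolynomial.induction_on with
    | C r => simp
    | add p q hp hq =>
      have := dvd_add hp hq
      rw [map_add]
      exact (by ring : p - aeval y p + (q - aeval y q) = p + q - (aeval y p + aeval y q)) ▸ this
    | mul_X p j hp =>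
      have h2 : a ∣ X j - y j := by
        simp only [y]; split_ifs <;> simp
      rw [map_mul, aeval_X]
      exact (by ring : (p - aeval y p) * X j + aeval y p * (X j - y j) =
        p * X j - aeval y p * y j) ▸ dvd_add (hp.mul_right _) (h2.mul_left _)
  · have := hf.aeval y (n := 1) fun j => by
      simp only [y]
      split_ifs
      · exact (isHomogeneous_X _ _).sub (h.C_mul _)
      · exact isHomogeneous_X _ _
    simpa using this

lemma prop_mul {a b : Fin l → MvPolynomial (Fin l) K} (h : ∀ i j, a i * b j = a j * b i)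
    (hu : ∀ p, (∀ i, p ∣ a i) → IsUnit p) : ∃ c, ∀ i, b i = c * a i := by
  obtain ⟨inst⟩ : Nonempty (NormalizedGCDMonoid (MvPolynomial (Fin l) K)) := inferInstance
  obtain ⟨j, hj⟩ : ∃ j, a j ≠ 0 := by
    by_contra hn
    push Not at hn
    exact not_isUnit_zero (hu 0 fun i => by simp [hn i])
  have h1 : a j ∣ Finset.univ.gcd fun i => a i * b j :=
    Finset.dvd_gcd fun i _ => ⟨b i, h i j⟩
  rw [(Finset.gcd_mul_right' _ a (b j)).dvd_iff_dvd_right,
    (hu _ fun i => Finset.gcd_dvd (Finset.mem_univ i)).dvd_mul_left] at h1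
  obtain ⟨c, hc⟩ := h1
  refine ⟨c, fun i => mul_left_cancel₀ hj ?_⟩
  rw [← h i j, hc]; ring

/-! ### Determinants -/

lemma saito {α : ι → MvPolynomial (Fin l) K} (hα : IsArrangement α)
    (T : Matrix (Fin l) (Fin l) (MvPolynomial (Fin l) K)) (hT : ∀ i, T i ∈ logDer α) :
    (∏ H, α H) ∣ T.det := by
  apply Fintype.prod_dvd_of_isRelPrime
  · intro H H' hne
    apply (lin_prime (hα.1 H).1 (hα.1 H).2).irreducible.isRelPrime_iff_not_dvd.2
    rintro ⟨c, hc⟩
    have hc0 : c ≠ 0 := by rintro rfl; exact (hα.1 H').2 (by simpa using hc)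
    have := congrArg totalDegree hc
    rw [totalDegree_mul_of_isDomain (hα.1 H).2 hc0, (hα.1 H).1.totalDegree (hα.1 H).2,
      (hα.1 H').1.totalDegree (hα.1 H').2] at this
    have e := totalDegree_eq_zero_iff_eq_C.1 (by omega : c.totalDegree = 0)
    have e0 : coeff 0 c ≠ 0 := fun h => hc0 (by rw [e, h]; simp)
    apply hne
    apply hα.2
    ext x
    simp only [Set.mem_setOf_eq]
    rw [hc, e]
    simp [e0]
  · intro H
    obtain ⟨k, c, hc, hk⟩ := lin_ex (hα.1 H).1 (hα.1 H).2
    choose w hw using fun i => hT i H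
    have e := Matrix.det_updateCol_sum T k fun j => pderiv j (α H)
    have e2 : (fun i => ∑ j, pderiv j (α H) • T i j) = α H • w := by
      funext i
      rw [Pi.smul_apply, smul_eq_mul, ← hw i, act]
      simp [mul_comm]
    rw [e2, Matrix.det_updateCol_smul, hk, smul_eq_mul] at e
    refine ⟨C c⁻¹ * (T.updateCol k w).det, ?_⟩
    rw [mul_left_comm, e, ← mul_assoc, ← C_mul, inv_mul_cancel₀ hc]; simp

lemma det_hom (T : Matrix (Fin l) (Fin l) (MvPolynomial (Fin l) K)) (d : Fin l → ℕ)
    (h : ∀ i, IsHomDer (T i) (d i)) : T.det.IsHomogeneous (∑ i, d i) := by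
  rw [← Matrix.det_transpose, Matrix.det_apply]
  apply IsHomogeneous.sum
  intro σ _
  have := IsHomogeneous.prod Finset.univ (fun i => T.transpose (σ i) i) d fun i _ => h i (σ i)
  rcases Int.units_eq_one_or (Equiv.Perm.sign σ) with e | e <;> rw [e]
  · simpa using this
  · simpa using this.neg

lemma laplace (θ : Fin (l + 1) → Fin l → MvPolynomial (Fin l) K) :
    ∑ i : Fin (l + 1), ((-1) ^ (i.val + 1) * (minor θ i).det) • θ i = 0 := by
  funext j
  let N : Matrix (Fin (l + 1)) (Fin (l + 1)) (MvPolynomial (Fin l) K) :=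
    Matrix.of fun i => Fin.cons (θ i j) (θ i)
  have h0 : N.det = 0 :=
    Matrix.det_zero_of_column_eq (Fin.succ_ne_zero j).symm fun k => by simp [N]
  rw [Matrix.det_succ_column_zero] at h0
  have e : ∀ i, N.submatrix i.succAbove Fin.succ = minor θ i := by
    intro i; ext a b; simp [N, minor]
  simp only [e] at h0
  simp only [Finset.sum_apply, Pi.smul_apply, smul_eq_mul, Pi.zero_apply]
  rw [← neg_eq_zero, ← h0, ← Finset.sum_neg_distrib]
  apply Finset.sum_congr rfl
  intro i _
  simp [N, pow_succ]; ring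

lemma indep (T : Matrix (Fin l) (Fin l) (MvPolynomial (Fin l) K)) (h : T.det ≠ 0)
    (c : Fin l → MvPolynomial (Fin l) K) (hc : ∑ i, c i • T i = 0) (i : Fin l) : c i = 0 := by
  have e := Matrix.det_updateRow_sum T i c
  rw [hc, Matrix.det_eq_zero_of_row_eq_zero i (by simp)] at e
  exact (mul_eq_zero.1 e.symm).resolve_right h

lemma cramer (T : Matrix (Fin l) (Fin l) (MvPolynomial (Fin l) K))
    (ξ : Fin l → MvPolynomial (Fin l) K) : T.det • ξ = ∑ i, (T.updateRow i ξ).det • T i := by
  have e := Matrix.mulVec_cramer T.transpose ξ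
  rw [Matrix.det_transpose] at e
  rw [← e]
  funext j
  simp [Matrix.mulVec, dotProduct, Matrix.cramer_transpose_apply, mul_comm]

/-! ### The criterion -/

section
variable {α : ι → MvPolynomial (Fin l) K} {θ : Fin (l + 1) → Fin l → MvPolynomial (Fin l) K}
  {g : Fin (l + 1) → MvPolynomial (Fin l) K}

lemma Q_ne (hα : IsArrangement α) : ∏ H, α H ≠ 0 :=
  Finset.prod_ne_zero_iff.2 fun H _ => (hα.1 H).2

lemma minor_last (i : Fin l) : minor θ (Fin.last l) i = θ i.castSucc := by
  funext b; simp [minor]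

lemma rel (hα : IsArrangement α)
    (hg : ∀ i : Fin (l + 1), (-1) ^ (i.val + 1) * (minor θ i).det = g i * ∏ H, α H) :
    IsRel θ g := by
  have e := laplace θ
  simp only [hg, mul_comm (g _), mul_smul, ← Finset.smul_sum] at e
  exact (smul_eq_zero.1 e).resolve_left (Q_ne hα)

lemma det_last (hg : ∀ i : Fin (l + 1), (-1) ^ (i.val + 1) * (minor θ i).det = g i * ∏ H, α H) :
    (minor θ (Fin.last l)).det = (-1) ^ (l + 1) * g (Fin.last l) * ∏ H, α H := by
  have e := hg (Fin.last l)
  rw [mul_assoc, ← e, Fin.val_last, ← mul_assoc, ← mul_pow]; simp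

lemma relmod (hα : IsArrangement α)
    (hg : ∀ i : Fin (l + 1), (-1) ^ (i.val + 1) * (minor θ i).det = g i * ∏ H, α H)
    (hp : Prime (g (Fin.last l))) (hn : ¬ ∀ i : Fin l, g (Fin.last l) ∣ g i.castSucc)
    (f : Fin (l + 1) → MvPolynomial (Fin l) K) (hf : IsRel θ f) :
    ∃ c : MvPolynomial (Fin l) K, f = c • g := by
  have hr := rel hα hg
  have hd : (minor θ (Fin.last l)).det ≠ 0 := by
    rw [det_last hg]
    exact mul_ne_zero (mul_ne_zero (by simp) hp.ne_zero) (Q_ne hα)
  rw [IsRel, Fin.sum_univ_castSucc, ← eq_neg_iff_add_eq_zero] at hr hf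
  have e := indep _ hd
    (fun i => g (Fin.last l) * f i.castSucc - f (Fin.last l) * g i.castSucc) (by
      simp only [minor_last, sub_smul, mul_smul, Finset.sum_sub_distrib, ← Finset.smul_sum, hr, hf]
      rw [smul_neg, smul_neg, smul_comm, sub_self])
  push Not at hn
  obtain ⟨i, hi⟩ := hn
  obtain ⟨c, hc⟩ : g (Fin.last l) ∣ f (Fin.last l) :=
    (hp.dvd_or_dvd ⟨_, (sub_eq_zero.1 (e i)).symm⟩).resolve_right hi
  refine ⟨c, funext fun j => ?_⟩
  rw [Pi.smul_apply, smul_eq_mul]
  induction j using Fin.lastCases with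
  | last => rw [hc, mul_comm]
  | cast j =>
    apply mul_left_cancel₀ hp.ne_zero
    rw [sub_eq_zero.1 (e j), hc, mul_assoc]

lemma upd_mem (T : Matrix (Fin l) (Fin l) (MvPolynomial (Fin l) K)) (hT : ∀ i, T i ∈ logDer α)
    (j : Fin l) (ξ : Fin l → MvPolynomial (Fin l) K) (hξ : ξ ∈ logDer α) (i : Fin l) :
    T.updateRow j ξ i ∈ logDer α := by
  by_cases h : i = j
  · subst h; rwa [Matrix.updateRow_self]
  · rw [Matrix.updateRow_ne h]; exact hT i

lemma gen (hα : IsArrangement α) (hθ : ∀ i, θ i ∈ logDer α)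
    (hg : ∀ i : Fin (l + 1), (-1) ^ (i.val + 1) * (minor θ i).det = g i * ∏ H, α H)
    (h2 : CondII g) (ξ : Fin l → MvPolynomial (Fin l) K) (hξ : ξ ∈ logDer α) :
    ξ ∈ Submodule.span (MvPolynomial (Fin l) K) (Set.range θ) := by
  obtain ⟨⟨hG1, hG0⟩, hpos, hno⟩ := h2
  have hr := rel hα hg
  rw [IsRel, Fin.sum_univ_castSucc, add_comm, ← eq_neg_iff_add_eq_zero] at hr
  have hd := det_last hg
  have hQ := Q_ne hα
  set Q := ∏ H, α H
  set G := g (Fin.last l)
  set t := θ (Fin.last l)
  set ε : MvPolynomial (Fin l) K := (-1) ^ (l + 1) with hε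
  have εε : ε * ε = 1 := by rw [hε, ← mul_pow]; simp
  simp only [← minor_last] at hr
  have hT : ∀ i, minor θ (Fin.last l) i ∈ logDer α := fun i => by rw [minor_last]; exact hθ _
  have hS : ∀ i, minor θ (Fin.last l) i ∈
      Submodule.span (MvPolynomial (Fin l) K) (Set.range θ) := fun i => by
    rw [minor_last]; exact Submodule.subset_span ⟨_, rfl⟩
  set T := minor θ (Fin.last l)
  choose u' hu' using fun i => saito hα _ (upd_mem T hT i ξ hξ)
  have c1 : G • ξ = ∑ i, (ε * u' i) • T i := by
    have e := cramer T ξ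
    simp only [hu', hd] at e
    apply smul_right_injective _ hQ
    have : Q • G • ξ = ε • (ε * G * Q) • ξ := by
      rw [smul_smul, smul_smul]; congr 1; linear_combination (-Q * G) * εε
    simp only
    rw [this, e, Finset.smul_sum, Finset.smul_sum]
    apply Finset.sum_congr rfl
    intro i _
    rw [smul_smul, smul_smul]; congr 1; ring
  set u : Fin l → MvPolynomial (Fin l) K := fun i => ε * u' i with hu
  have c1' : G • ξ = ∑ i, u i • T i := c1
  clear_value u
  have d1 : ∀ j, (T.updateRow j t).det = -(ε * g j.castSucc * Q) := by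
    intro j
    apply mul_left_cancel₀ hG0
    have e := Matrix.det_updateRow_sum T j fun k => -g k.castSucc
    simp only [neg_smul, Finset.sum_neg_distrib] at e
    rw [← Matrix.det_updateRow_smul, hr, e, hd, smul_eq_mul]; ring
  have d2 : ∀ i j, g j.castSucc ≠ 0 → G ∣ g j.castSucc * u i - u j * g i.castSucc := by
    intro i j hj
    by_cases hij : i = j
    · subst hij; simp [mul_comm]
    obtain ⟨r, hr2⟩ := saito hα _ (upd_mem _ (upd_mem T hT j t (hθ _)) i ξ hξ)
    have e := Matrix.det_updateRow_sum (T.updateRow j t) i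
      fun k => g j.castSucc * u k - u j * g k.castSucc
    have e2 : ∑ k, (g j.castSucc * u k - u j * g k.castSucc) • T.updateRow j t k =
        G • (g j.castSucc • ξ + u j • t) := by
      rw [smul_add, smul_comm G, smul_comm G, c1', hr, smul_neg, Finset.smul_sum, Finset.smul_sum,
        ← sub_eq_add_neg, ← Finset.sum_sub_distrib]
      apply Finset.sum_congr rfl
      intro k _
      by_cases hk : k = j
      · subst hk; rw [smul_smul, smul_smul, mul_comm]; simp
      · rw [Matrix.updateRow_ne hk, sub_smul, mul_smul, mul_smul]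
    have z : ((T.updateRow j t).updateRow i t).det = 0 :=
      Matrix.det_zero_of_row_eq hij (by
        rw [Matrix.updateRow_self, Matrix.updateRow_ne (Ne.symm hij), Matrix.updateRow_self])
    rw [e2, Matrix.det_updateRow_smul, Matrix.det_updateRow_add, Matrix.det_updateRow_smul,
      Matrix.det_updateRow_smul, z, hr2, d1, smul_eq_mul] at e
    refine ⟨-(ε * r), mul_left_cancel₀ (mul_ne_zero hj hQ) ?_⟩
    linear_combination ε * e - (g j.castSucc * Q * (g j.castSucc * u i - u j * g i.castSucc)) * εε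
  have d3 : ∀ i j, G ∣ g j.castSucc * u i - u j * g i.castSucc := by
    intro i j
    by_cases hj : g j.castSucc = 0
    · by_cases hi : g i.castSucc = 0
      · simp [hi, hj]
      · have := (d2 j i hi).neg_right
        exact (by ring : -(g i.castSucc * u j - u i * g j.castSucc) =
          g j.castSucc * u i - u j * g i.castSucc) ▸ this
    · exact d2 i j hj
  obtain ⟨π, p0, p1, p2⟩ := retraction hG1 hG0
  obtain ⟨c, hc⟩ := prop_mul (a := fun i => π (g i.castSucc)) (b := fun i => π (u i))
    (fun i j => by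
      obtain ⟨r, e⟩ := d3 j i
      have := congrArg π e
      rw [map_mul π G, p0, zero_mul, map_sub, map_mul, map_mul, sub_eq_zero] at this
      rw [this, mul_comm])
    (fun p hp => by
      have key : ∀ h, InSpos h → ¬ ∀ i : Fin l, h ∣ π (g i.castSucc) := by
        intro h hh hd
        refine hno ⟨h, hh, fun i => ?_⟩
        obtain ⟨a, ha⟩ := hd i
        obtain ⟨b, hb⟩ := p1 (g i.castSucc)
        exact Ideal.mem_span_pair.2 ⟨a, b, by linear_combination -ha - hb⟩
      by_cases h0 : p.totalDegree = 0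
      · refine isUnit_iff_totalDegree_of_isReduced.2 ⟨isUnit_iff_ne_zero.2 fun h => ?_, h0⟩
        have e := totalDegree_eq_zero_iff_eq_C.1 h0
        rw [h, map_zero] at e
        exact key 0 ⟨1, one_pos, isHomogeneous_zero _ _ _⟩ (e ▸ hp)
      · refine absurd (fun i => ?_) (key (homogeneousComponent p.totalDegree p)
          ⟨_, Nat.pos_of_ne_zero h0, homogeneousComponent_isHomogeneous _ _⟩)
        obtain ⟨e, he⟩ := hp i
        obtain ⟨n, _, hn⟩ := hpos i
        have hh := p2 _ _ hn
        by_cases hz : p * e = 0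
        · rw [he, hz]; exact dvd_zero _
        · rw [he] at hh ⊢
          exact ⟨_, top_eq hh hz⟩)
  have d4 : ∀ i, G ∣ u i - c * g i.castSucc := by
    intro i
    have := dvd_sub (p1 (u i)) ((p1 (g i.castSucc)).mul_left c)
    rw [hc i] at this
    exact (by ring : u i - c * π (g i.castSucc) - c * (g i.castSucc - π (g i.castSucc)) =
      u i - c * g i.castSucc) ▸ this
  choose w hw using d4
  have fin : ξ = ∑ i, w i • T i - c • t := by
    apply smul_right_injective _ hG0
    simp only
    rw [c1', smul_sub, smul_comm G c, hr, smul_neg, sub_neg_eq_add, Finset.smul_sum,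
      Finset.smul_sum, ← Finset.sum_add_distrib]
    apply Finset.sum_congr rfl
    intro i _
    rw [smul_smul, smul_smul, ← add_smul, ← hw]; congr 1; ring
  rw [fin]
  exact Submodule.sub_mem _ (Submodule.sum_mem _ fun i _ => Submodule.smul_mem _ _ (hS i))
    (Submodule.smul_mem _ _ (Submodule.subset_span ⟨_, rfl⟩))

lemma mem_others (i : Fin (l + 1)) :
    θ i ∈ Submodule.span (MvPolynomial (Fin l) K) (θ '' {j | j ≠ i}) ↔
      ∃ f, IsRel θ f ∧ f i = 1 := by
  constructor
  · intro h
    have : ∀ x ∈ Submodule.span (MvPolynomial (Fin l) K) (θ '' {j | j ≠ i}),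
        ∃ f : Fin (l + 1) → MvPolynomial (Fin l) K, ∑ j, f j • θ j = x ∧ f i = 0 := by
      intro x hx
      induction hx using Submodule.span_induction with
      | mem x hx =>
        obtain ⟨j, hj, rfl⟩ := hx
        exact ⟨Pi.single j 1, by simp [Pi.single_apply, ite_smul], by simp [Ne.symm hj]⟩
      | zero => exact ⟨0, by simp, rfl⟩
      | add x y _ _ hx hy =>
        obtain ⟨f, rfl, hf⟩ := hx
        obtain ⟨f', rfl, hf'⟩ := hy
        exact ⟨f + f', by simp [add_smul, Finset.sum_add_distrib], by simp [hf, hf']⟩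
      | smul c x _ hx =>
        obtain ⟨f, rfl, hf⟩ := hx
        exact ⟨c • f, by simp [mul_smul, Finset.smul_sum], by simp [hf]⟩
    obtain ⟨f, e, hf⟩ := this _ h
    refine ⟨Pi.single i 1 - f, ?_, by simp [hf]⟩
    simp [IsRel, sub_smul, Finset.sum_sub_distrib, e, Pi.single_apply, ite_smul]
  · rintro ⟨f, hf, h1⟩
    rw [IsRel, ← Finset.add_sum_erase _ _ (Finset.mem_univ i), h1, one_smul,
      ← eq_neg_iff_add_eq_zero] at hf
    rw [hf]
    exact Submodule.neg_mem _ (Submodule.sum_mem _ fun j hj => Submodule.smul_mem _ _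
      (Submodule.subset_span ⟨j, (Finset.mem_erase.1 hj).1, rfl⟩))

lemma gQ_hom (hg : ∀ i : Fin (l + 1), (-1) ^ (i.val + 1) * (minor θ i).det = g i * ∏ H, α H)
    (deg : Fin (l + 1) → ℕ) (hd : ∀ i, IsHomDer (θ i) (deg i)) (i : Fin (l + 1)) :
    (g i * ∏ H, α H).IsHomogeneous (∑ a, deg (i.succAbove a)) := by
  have e := det_hom (minor θ i) _ fun a => hd (i.succAbove a)
  rw [← hg]
  rcases neg_one_pow_eq_or (MvPolynomial (Fin l) K) (i.val + 1) with h | h <;> rw [h]
  · simpa using e
  · simpa using e.neg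

lemma Q_hom (hα : IsArrangement α) : (∏ H, α H).IsHomogeneous (∑ _H : ι, 1) :=
  IsHomogeneous.prod _ _ _ fun H _ => (hα.1 H).1

lemma two_one (hα : IsArrangement α) (hθ : ∀ i, θ i ∈ logDer α)
    (hg : ∀ i : Fin (l + 1), (-1) ^ (i.val + 1) * (minor θ i).det = g i * ∏ H, α H)
    (deg : Fin (l + 1) → ℕ) (hd : ∀ i, IsHomDer (θ i) (deg i)) (h2 : CondII g) : CondI α θ g := by
  have hs : Submodule.span _ (Set.range θ) = logDer α :=
    le_antisymm (Submodule.span_le.2 (by rintro _ ⟨i, rfl⟩; exact hθ i)) (gen hα hθ hg h2)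
  obtain ⟨⟨hG1, hG0⟩, hpos, hno⟩ := h2
  have hn : ¬ ∀ i : Fin l, g (Fin.last l) ∣ g i.castSucc := fun h =>
    hno ⟨_, ⟨1, one_pos, hG1⟩, fun i => by
      obtain ⟨a, ha⟩ := h i
      exact Ideal.mem_span_pair.2 ⟨a, 0, by linear_combination -ha⟩⟩
  have hm := relmod hα hg (lin_prime hG1 hG0) hn
  have hr := rel hα hg
  have hc : ∀ (c : MvPolynomial (Fin l) K), IsRel θ (c • g) := by
    intro c
    simp only [IsRel, Pi.smul_apply, smul_eq_mul, mul_smul, ← Finset.smul_sum]
    rw [show ∑ i, g i • θ i = 0 from hr, smul_zero]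
  have hall : ∀ i, InSpos (g i) := fun i => by
    induction i using Fin.lastCases with
    | last => exact ⟨1, one_pos, hG1⟩
    | cast i => exact hpos i
  refine ⟨⟨θ, deg, g, hd, hs, fun r => ⟨hm r, by rintro ⟨c, rfl⟩; exact hc c⟩, fun i => ?_, hG0⟩,
    hs, fun i hi => ?_, ⟨hr, fun p hp => ?_⟩, fun f hf => ?_, hG1, hG0⟩
  · by_cases h0 : g i = 0
    · exact Or.inl h0
    · obtain ⟨n, hn0, hn⟩ := hall i
      refine Or.inr ⟨n, hn0, ?_, hn⟩
      have e1 := (gQ_hom hg deg hd i).inj_right (hn.mul (Q_hom hα)) (mul_ne_zero h0 (Q_ne hα))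
      have e2 := (gQ_hom hg deg hd _).inj_right (hG1.mul (Q_hom hα)) (mul_ne_zero hG0 (Q_ne hα))
      have e3 := Fin.sum_univ_succAbove deg i
      have e4 := Fin.sum_univ_succAbove deg (Fin.last l)
      omega
  · obtain ⟨f, hf, h1⟩ := (mem_others i).1 hi
    obtain ⟨c, rfl⟩ := hm f hf
    have := congrArg constantCoeff h1
    simp [pos_const (hall i)] at this
  · rcases (lin_prime hG1 hG0).irreducible.dvd_iff.1 (hp (Fin.last l)) with h | h
    · exact (isUnit_iff_totalDegree_of_isReduced.1 h).2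
    · exact absurd (fun i => h.dvd.trans (hp _)) hn
  · obtain ⟨c, rfl⟩ := hm f hf.1
    have e := totalDegree_eq_zero_iff_eq_C.1 (hf.2 c fun i => ⟨g i, rfl⟩)
    refine ⟨coeff 0 c, fun h => ?_, funext fun i => ?_⟩
    · rw [h, map_zero] at e
      have := hf.2 (g (Fin.last l)) fun i => by simp [e]
      rw [hG1.totalDegree hG0] at this
      exact one_ne_zero this
    · rw [Pi.smul_apply, Pi.smul_apply, smul_eq_C_mul, ← e, smul_eq_mul]

lemma one_two (hα : IsArrangement α) (hθ : ∀ i, θ i ∈ logDer α)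
    (hg : ∀ i : Fin (l + 1), (-1) ^ (i.val + 1) * (minor θ i).det = g i * ∏ H, α H)
    (deg : Fin (l + 1) → ℕ) (hd : ∀ i, IsHomDer (θ i) (deg i)) (h1 : CondI α θ g) : CondII g := by
  obtain ⟨-, hs, hmin, ⟨hr, hprim⟩, -, hG1, hG0⟩ := h1
  have hp := lin_prime hG1 hG0
  have hn : ¬ ∀ i : Fin l, g (Fin.last l) ∣ g i.castSucc := fun h => by
    have := hprim (g (Fin.last l)) fun i => by
      induction i using Fin.lastCases with
      | last => exact dvd_rfl
      | cast i => exact h i
    rw [hG1.totalDegree hG0] at this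
    exact one_ne_zero this
  refine ⟨⟨hG1, hG0⟩, fun i => ?_, ?_⟩
  · by_cases h0 : g i.castSucc = 0
    · exact ⟨1, one_pos, h0 ▸ isHomogeneous_zero _ _ _⟩
    have e := top_eq (gQ_hom hg deg hd i.castSucc) (mul_ne_zero h0 (Q_ne hα))
    rw [(Q_hom hα).totalDegree (Q_ne hα), homogeneousComponent_eq_self (Q_hom hα)] at e
    have e2 := mul_right_cancel₀ (Q_ne hα) e
    refine ⟨(g i.castSucc).totalDegree, Nat.pos_of_ne_zero fun hz => ?_, ?_⟩
    · have e3 := totalDegree_eq_zero_iff_eq_C.1 hz
      have e4 : coeff 0 (g i.castSucc) ≠ 0 := fun h => h0 (by rw [e3, h, map_zero])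
      refine hmin i.castSucc ((mem_others _).2 ⟨(C (coeff 0 (g i.castSucc))⁻¹ :
        MvPolynomial (Fin l) K) • g, ?_, ?_⟩)
      · simp only [IsRel, Pi.smul_apply, smul_eq_mul, mul_smul, ← Finset.smul_sum]
        rw [show ∑ i, g i • θ i = 0 from hr, smul_zero]
      · rw [Pi.smul_apply, smul_eq_mul]
        nth_rewrite 2 [e3]
        rw [← C_mul, inv_mul_cancel₀ e4, C_1]
    · have e5 := homogeneousComponent_isHomogeneous (g i.castSucc).totalDegree (g i.castSucc)
      rwa [← e2] at e5
  · rintro ⟨h, hh, hd⟩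
    choose p q hpq using fun i => Ideal.mem_span_pair.1 (hd i)
    set G := g (Fin.last l) with hG
    have hGh : ¬ G ∣ h := fun ⟨a, ha⟩ => hn fun i => ⟨p i * a + q i, by
      rw [← hpq i, ha]; ring⟩
    rw [IsRel, Fin.sum_univ_castSucc] at hr
    set P := ∑ i, p i • θ i.castSucc with hP
    set R := ∑ i, q i • θ i.castSucc + θ (Fin.last l) with hR
    have e : h • P + G • R = 0 := by
      rw [← hr, hP, hR, smul_add, Finset.smul_sum, Finset.smul_sum, ← add_assoc,
        ← Finset.sum_add_distrib]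
      congr 1
      apply Finset.sum_congr rfl
      intro i _
      rw [smul_smul, smul_smul, ← add_smul, ← hpq i]; congr 1; ring
    have dv : ∀ j, G ∣ P j := fun j => by
      have := congrFun e j
      simp only [Pi.add_apply, Pi.smul_apply, smul_eq_mul, Pi.zero_apply] at this
      exact (hp.dvd_or_dvd ⟨-R j, by linear_combination this⟩).resolve_left hGh
    choose ξ hξ using dv
    have e1 : P = G • ξ := funext hξ
    have e2 : h • ξ + R = 0 := by
      apply smul_right_injective _ hG0
      simp only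
      rw [smul_zero, ← e, e1, smul_add, smul_comm]
    have mP : G • ξ ∈ logDer α := e1 ▸ Submodule.sum_mem _ fun i _ => Submodule.smul_mem _ _ (hθ _)
    have mR : h • ξ ∈ logDer α := by
      rw [eq_neg_of_add_eq_zero_left e2]
      exact Submodule.neg_mem _ (Submodule.add_mem _
        (Submodule.sum_mem _ fun i _ => Submodule.smul_mem _ _ (hθ _)) (hθ _))
    have mξ : ξ ∈ logDer α := by
      intro H
      have a1 : ∀ c : MvPolynomial (Fin l) K, act (c • ξ) (α H) = c * act ξ (α H) := by
        intro c; simp [act, Finset.mul_sum, mul_assoc]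
      have pH := lin_prime (hα.1 H).1 (hα.1 H).2
      have b1 := mP H
      have b2 := mR H
      rw [a1] at b1 b2
      by_contra hc
      exact hGh (((pH.irreducible.dvd_irreducible_iff_associated hp.irreducible).1
        ((pH.dvd_or_dvd b1).resolve_right hc)).symm.dvd.trans ((pH.dvd_or_dvd b2).resolve_right hc))
    rw [← hs, Submodule.mem_span_range_iff_exists_fun] at mξ
    obtain ⟨c, hc⟩ := mξ
    obtain ⟨k, hk⟩ := relmod hα hg hp hn
      (h • c + (Fin.snoc q 1 : Fin (l + 1) → MvPolynomial (Fin l) K)) (by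
      rw [IsRel, ← e2, ← hc, hR]
      simp only [Pi.add_apply, add_smul, Finset.sum_add_distrib, Pi.smul_apply, smul_eq_mul,
        mul_smul, ← Finset.smul_sum]
      congr 1
      rw [Fin.sum_univ_castSucc]; simp)
    have := congrArg (constantCoeff (R := K) (σ := Fin l)) (congrFun hk (Fin.last l))
    have z : constantCoeff G = 0 := pos_const ⟨1, one_pos, hG1⟩
    simp [pos_const hh, ← hG, z] at this

end

theorem result (K : Type u) [Field K] (l : ℕ) (ι : Type v) [Fintype ι]
    (α : ι → MvPolynomial (Fin l) K) (hα : IsArrangement α)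
    (θ : Fin (l + 1) → Fin l → MvPolynomial (Fin l) K)
    (hθ : ∀ i, θ i ∈ logDer α ∧ ∃ d, IsHomDer (θ i) d)
    (g : Fin (l + 1) → MvPolynomial (Fin l) K)
    (hg : ∀ i : Fin (l + 1), (-1) ^ (i.val + 1) * (minor θ i).det = g i * ∏ H, α H) :
    CondI α θ g ↔ CondII g := by
  choose deg hd using fun i => (hθ i).2
  exact ⟨one_two hα (fun i => (hθ i).1) hg deg hd, two_one hα (fun i => (hθ i).1) hg deg hd⟩

end Pool.Agent.Results.MP_eea557_ag.SaitoSPOG
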